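import Pool.Agent.V1157.KF.Defs
import Pool.Agent.W492.BB.Calc

/-!
# Beilinson's regulators: definitions
-/

open CategoryTheory AlgebraicGeometry

universe u v w

namespace Pool.Agent.V1157.RG

open Pool.Agent.H914 Pool.Agent.H914.VarClass Pool.Agent.H914.VarClass.Obj Pool.Agent.W492.BB
  Pool.Agent.V1157.KF

variable {k : Type u} [Field k] {𝒱 : VarClass k}

/-- Vector spaces `M(X)` over the field `F`, for the varieties `X` of the class `𝒱`, and maps
`M(X) → M(Y)` induced by correspondences. -/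
structure ActData (C : TheoryData.{u, v, 0} 𝒱 ℚ) (F : Type) [Field F] where
  /-- the vector space `M(X)` -/
  M : 𝒱.Obj → Type w
  [grp : ∀ X, AddCommGroup (M X)]
  [mod : ∀ X, Module F (M X)]
  /-- the action of the correspondences -/
  act : ∀ {X Y : 𝒱.Obj}, C.A (X.prod Y) → M X → M Y

attribute [instance] ActData.grp ActData.mod

/-- The maps induced by correspondences are `F`-linear. -/
structure ActData.Linear {C : TheoryData.{u, v, 0} 𝒱 ℚ} {F : Type} [Field F]
    (M : ActData.{u, v, w} C F) : Prop where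
  map_add : ∀ {X Y : 𝒱.Obj} (Γ : C.A (X.prod Y)) (x y : M.M X),
    M.act Γ (x + y) = M.act Γ x + M.act Γ y
  map_smul : ∀ {X Y : 𝒱.Obj} (Γ : C.A (X.prod Y)) (c : F) (x : M.M X),
    M.act Γ (c • x) = c • M.act Γ x

/-- The correspondences of degree zero between the varieties of dimension `n` act: the map
`M(X) → M(Y)` induced by a class `Γ` in `A^n(X × Y)` is `ℚ`-linear in `Γ` and compatible with
composition. -/
structure ActData.Laws {C : TheoryData.{u, v, 0} 𝒱 ℚ} {F : Type} [Field F]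
    (M : ActData.{u, v, w} C F) (n : ℕ) : Prop where
  add : ∀ {X Y : 𝒱.Obj} {Γ Δ : C.A (X.prod Y)} (x : M.M X), X.dim = n → Y.dim = n →
    C.Deg n Γ → C.Deg n Δ → M.act (Γ + Δ) x = M.act Γ x + M.act Δ x
  smul : ∀ {X Y : 𝒱.Obj} {Γ : C.A (X.prod Y)} (q : ℚ) (x : M.M X), X.dim = n → Y.dim = n →
    C.Deg n Γ → M.act (q • Γ) x = (q : F) • M.act Γ x
  comp : ∀ {X Y Z : 𝒱.Obj} {Γ : C.A (X.prod Y)} {Δ : C.A (Y.prod Z)} (x : M.M X), X.dim = n →
    Y.dim = n → Z.dim = n → C.Deg n Γ → C.Deg n Δ → M.act (C.comp Γ Δ) x = M.act Δ (M.act Γ x)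
  id : ∀ {X : 𝒱.Obj} (x : M.M X), X.dim = n → M.act (C.graph (𝟙 X)) x = x

/-- Vector spaces `M(X)` over the field `F` on which the correspondences of degree zero between
the varieties of dimension `n` act `F`-linearly. -/
structure CorrModule (C : TheoryData.{u, v, 0} 𝒱 ℚ) (n : ℕ) (F : Type) [Field F] extends
    ActData.{u, v, w} C F where
  linear : toActData.Linear
  laws : toActData.Laws n

variable {C : TheoryData.{u, v, 0} 𝒱 ℚ} {n : ℕ} {F : Type} [Field F]

/-- The decomposable correspondences `a × b` of degree zero, `a` of degree `s`, act on `M` through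
`F`-vector spaces `pt s` (the groups of the base field): `(a × b)_* x = b · π^* π_* (a x)`, where
`down s a x` is `π_* (a x)` and `up s b t` is `b · π^* t`. -/
structure Constants (M : CorrModule.{u, v, w} C n F) where
  /-- the groups of the base field -/
  pt : ℕ → Type w
  [grp : ∀ s, AddCommGroup (pt s)]
  /-- `x ↦ π_* (a x)` -/
  down : ∀ {X : 𝒱.Obj} (s : ℕ), C.A X → M.M X → pt s
  /-- `t ↦ b · π^* t` -/
  up : ∀ {X : 𝒱.Obj} (s : ℕ), C.A X → pt s → M.M X
  down_zero : ∀ {X : 𝒱.Obj} (s : ℕ) (a : C.A X), down s a 0 = 0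
  up_zero : ∀ {X : 𝒱.Obj} (s : ℕ) (b : C.A X), up s b 0 = 0
  act_ext : ∀ {X Y : 𝒱.Obj} (s : ℕ) {a : C.A X} {b : C.A Y} (x : M.M X), X.dim = n →
    Y.dim = n → s ≤ n → C.Deg s a → C.Deg (n - s : ℕ) b →
      M.act (C.ext a b) x = up s b (down s a x)

attribute [instance] Constants.grp

/-- Regulators on the varieties of dimension `n`: linear maps `r : M(X) → S(X)` compatible with the
correspondences, and regulators `pt s → pt s` of the base field, which are bijective. -/
structure Regulators (C : TheoryData.{u, v, 0} 𝒱 ℚ) (n : ℕ) (F : Type) [Field F] where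
  /-- motivic cohomology -/
  M : CorrModule.{u, v, w} C n F
  /-- Deligne cohomology -/
  S : CorrModule.{u, v, w} C n F
  /-- the regulator -/
  r : ∀ X : 𝒱.Obj, M.M X → S.M X
  r_add : ∀ {X : 𝒱.Obj} (b b' : M.M X), r X (b + b') = r X b + r X b'
  r_smul : ∀ {X : 𝒱.Obj} (c : F) (b : M.M X), r X (c • b) = c • r X b
  r_act : ∀ {X Y : 𝒱.Obj} {Γ : C.A (X.prod Y)} (b : M.M X), X.dim = n → Y.dim = n →
    C.Deg n Γ → r Y (M.act Γ b) = S.act Γ (r X b)
  /-- the motivic cohomology of the base field -/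
  cM : Constants M
  /-- the Deligne cohomology of the base field -/
  cS : Constants S
  /-- the regulators of the base field -/
  rpt : ∀ s, cM.pt s → cS.pt s
  rpt_bij : ∀ s, s ≤ n → Function.Bijective (rpt s)
  rpt_down : ∀ {X : 𝒱.Obj} (s : ℕ) (a : C.A X) (b : M.M X),
    rpt s (cM.down s a b) = cS.down s a (r X b)
  rpt_up : ∀ {X : 𝒱.Obj} (s : ℕ) (b : C.A X) (t : cM.pt s),
    r X (cM.up s b t) = cS.up s b (rpt s t)
  rpt_zero : ∀ s, rpt s 0 = 0

/-- The composition of the actions of the correspondences in the list `W`, the first one acting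
first. -/
def mops (M : CorrModule.{u, v, w} C n F) {X : 𝒱.Obj} (W : List (C.A (X.prod X))) (x : M.M X) :
    M.M X :=
  W.foldl (fun s Γ => M.act Γ s) x

/-- The linear combination `∑ c_i x_i`. -/
def comb (M : CorrModule.{u, v, w} C n F) {X : 𝒱.Obj} {N : ℕ} (c : Fin N → F)
    (x : Fin N → M.M X) : M.M X :=
  ∑ i, c i • x i

/-- The value `∑ c(σ) W_{σ(1)} W_{σ(2)} ⋯ W_{σ(d)} x`, the sum over all permutations `σ`. -/
def polyValue (M : CorrModule.{u, v, w} C n F) {X : 𝒱.Obj} {d : ℕ} (c : Equiv.Perm (Fin d) → F)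
    (W : Fin d → C.A (X.prod X)) (x : M.M X) : M.M X :=
  ∑ σ, c σ • mops M (List.ofFn fun i => W (σ i)) x

variable (a : Regulators.{u, v, w} C n F)

/-- For all varieties `X` of dimension `n`, the regulator of `X` is an isomorphism. -/
def IsIso : Prop := ∀ X : 𝒱.Obj, X.dim = n → Function.Bijective (a.r X)

/-- For all varieties `X` of dimension `n`, the kernel of the regulator has dimension at most
`D`. -/
def KerAtMost (D : ℕ) : Prop := ∀ (X : 𝒱.Obj) (b : Fin (D + 1) → a.M.M X), X.dim = n →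
  (∀ i, a.r X (b i) = 0) → ∃ c : Fin (D + 1) → F, c ≠ 0 ∧ comb a.M c b = 0

/-- For all varieties `X` of dimension `n`, the cokernel of the regulator has dimension at most
`D`. -/
def CokerAtMost (D : ℕ) : Prop := ∀ (X : 𝒱.Obj) (s : Fin (D + 1) → a.S.M X), X.dim = n →
  ∃ c : Fin (D + 1) → F, c ≠ 0 ∧ ∃ b : a.M.M X, a.r X b = comb a.S c s

/-- The actions of any `d` self-correspondences of degree zero on the kernels satisfy the
multilinear polynomial identity `∑ c(σ) W_{σ(1)} W_{σ(2)} ⋯ W_{σ(d)} = 0`, the sum over all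
permutations `σ`. -/
def KerIdentity (d : ℕ) (c : Equiv.Perm (Fin d) → F) : Prop :=
  ∀ (X : 𝒱.Obj) (W : Fin d → C.A (X.prod X)), X.dim = n → (∀ i, C.Deg n (W i)) →
    ∀ b : a.M.M X, a.r X b = 0 → polyValue a.M c W b = 0

/-- The actions of any `d` self-correspondences of degree zero on the cokernels satisfy the
multilinear polynomial identity `∑ c(σ) W_{σ(1)} W_{σ(2)} ⋯ W_{σ(d)} = 0`, the sum over all
permutations `σ`. -/
def CokerIdentity (d : ℕ) (c : Equiv.Perm (Fin d) → F) : Prop :=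
  ∀ (X : 𝒱.Obj) (W : Fin d → C.A (X.prod X)), X.dim = n → (∀ i, C.Deg n (W i)) →
    ∀ s : a.S.M X, ∃ b : a.M.M X, a.r X b = polyValue a.S c W s

end Pool.Agent.V1157.RG
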