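import Pool.Agent.V1157.RG.Core

/-!
# Regulators with bounded kernels or cokernels
-/

open CategoryTheory AlgebraicGeometry

universe u v w

namespace Pool.Agent.V1157.RG

open Pool.Agent.H914 Pool.Agent.H914.VarClass Pool.Agent.H914.VarClass.Obj Pool.Agent.W492.BB
  Pool.Agent.W550.Corr Pool.Agent.TH133 Pool.Agent.Y148.BB Pool.Agent.V1157.KF

set_option linter.unusedSectionVars false

variable {k : Type u} [Field k] {𝒱 : VarClass k} {C : TheoryData.{u, v, 0} 𝒱 ℚ}
  [hC : IsChowProj C] {n : ℕ} {F : Type} [Field F] [CharZero F]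

/-- The kernels. -/
def Ker (a : Regulators.{u, v, w} C n F) (X : 𝒱.Obj) (b : a.M.M X) : Prop :=
  X.dim = n ∧ a.r X b = 0

/-- The images. -/
def Img (a : Regulators.{u, v, w} C n F) (X : 𝒱.Obj) (s : a.S.M X) : Prop :=
  X.dim = n → ∃ b, a.r X b = s

variable (a : Regulators.{u, v, w} C n F)

/-- The regulator as a linear map. -/
def Regulators.L (X : 𝒱.Obj) : a.M.M X →ₗ[F] a.S.M X where
  toFun := a.r X
  map_add' := a.r_add
  map_smul' := a.r_smul

omit hC in
lemma mops_zero {M : CorrModule.{u, v, w} C n F} {X : 𝒱.Obj} (W : List (C.A (X.prod X))) :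
    mops M W (0 : M.M X) = 0 := by
  induction W with
  | nil => rfl
  | cons Γ W ih => rw [mops_cons, M.amap_zero, ih]

lemma r_zero (X : 𝒱.Obj) : a.r X 0 = 0 := map_zero (a.L X)

lemma inj_of {X : 𝒱.Obj} (h : ∀ b, a.r X b = 0 → b = 0) : Function.Injective (a.r X) :=
  (injective_iff_map_eq_zero (a.L X)).2 h

lemma ker_stable : Stable a.M (Ker a) where
  add hx hy := ⟨hx.1, by rw [a.r_add, hx.2, hy.2, add_zero]⟩
  smul c hx := ⟨hx.1, by rw [a.r_smul, hx.2, smul_zero]⟩
  act hX hY hΓ hx := ⟨hY, by rw [a.r_act _ hX hY hΓ, hx.2, a.S.amap_zero]⟩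

lemma img_stable : Stable a.S (Img a) where
  add hx hy hX := by
    obtain ⟨b, hb⟩ := hx hX
    obtain ⟨b', hb'⟩ := hy hX
    exact ⟨b + b', by rw [a.r_add, hb, hb']⟩
  smul c hx hX := by
    obtain ⟨b, hb⟩ := hx hX
    exact ⟨c • b, by rw [a.r_smul, hb]⟩
  act {X Y Γ x} hX hY hΓ hx _ := by
    obtain ⟨b, hb⟩ := hx hX
    exact ⟨a.M.act Γ b, by rw [a.r_act _ hX hY hΓ, hb]⟩

lemma zero_stable : Stable a.M (fun _ b => b = 0) where
  add hx hy := by rw [hx, hy, add_zero]
  smul c hx := by rw [hx, smul_zero]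
  act _ _ _ hx := by rw [hx, a.M.amap_zero]

lemma top_stable : Stable a.S (fun _ _ => True) where
  add _ _ := trivial
  smul _ _ := trivial
  act _ _ _ _ := trivial

lemma ker_kills : Kills a.M (Ker a) (fun _ b => b = 0) where
  zero _ _ := rfl
  ext {X Y} s α β x hX hY hs hα hβ hx := by
    have h1 : a.cM.down s α x = 0 := by
      apply (a.rpt_bij s hs).1
      rw [a.rpt_down, hx.2, a.cS.down_zero, a.rpt_zero]
    rw [a.cM.act_ext s x hX hY hs hα hβ, h1, a.cM.up_zero]

lemma img_kills : Kills a.S (fun _ _ => True) (Img a) where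
  zero X _ _ := ⟨0, r_zero a X⟩
  ext {X Y} s α β x hX hY hs hα hβ _ _ := by
    obtain ⟨t, ht⟩ := (a.rpt_bij s hs).2 (a.cS.down s α x)
    exact ⟨a.cM.up s β t, by rw [a.rpt_up, ht, a.cS.act_ext s x hX hY hs hα hβ]⟩

/-- **Injectivity of regulators.** -/
theorem ker_main (hB : ∀ (S : 𝒱.Obj) (N : ℕ), S.dim = n → HasPower C n N S) :
    List.TFAE [∀ X : 𝒱.Obj, X.dim = n → Function.Injective (a.r X), ∃ D, KerAtMost a D,
      ∃ (d : ℕ) (c : Equiv.Perm (Fin d) → F), c ≠ 0 ∧ KerIdentity a d c] := by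
  tfae_have 1 → 2 := by
    intro h
    refine ⟨0, fun X b hX hb => ⟨fun _ => 1, ?_, ?_⟩⟩
    · intro h1
      exact one_ne_zero (congrFun h1 0)
    · apply Finset.sum_eq_zero
      intro i _
      have : b i = 0 := h X hX (by rw [hb i, r_zero])
      rw [this, smul_zero]
  tfae_have 2 → 1 := by
    rintro ⟨D, hD⟩ X hX
    refine inj_of a fun b hb => ?_
    exact of_bounded (P := Ker a) (Q := fun _ b => b = 0) (ker_stable a) (zero_stable a)
      (ker_kills a) hB (D := D) (fun X x hX hx => hD X x hX fun i => (hx i).2) X b hX ⟨hX, hb⟩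
  tfae_have 1 → 3 := by
    intro h
    refine ⟨0, fun _ => 1, ?_, ?_⟩
    · intro h1
      exact one_ne_zero (congrFun h1 1)
    · intro X W hX hW b hb
      have : b = 0 := h X hX (by rw [hb, r_zero])
      apply Finset.sum_eq_zero
      intro σ _
      rw [this, mops_zero, smul_zero]
  tfae_have 3 → 1 := by
    rintro ⟨d, c, hc, hI⟩ X hX
    refine inj_of a fun b hb => ?_
    exact of_identity (P := Ker a) (Q := fun _ b => b = 0) (ker_stable a) (zero_stable a)
      (ker_kills a) hB hc (fun X W x hX hW hx => hI X W hX hW x hx.2) X b hX ⟨hX, hb⟩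
  tfae_finish

/-- **Surjectivity of regulators.** -/
theorem coker_main (hB : ∀ (S : 𝒱.Obj) (N : ℕ), S.dim = n → HasPower C n N S) :
    List.TFAE [∀ X : 𝒱.Obj, X.dim = n → Function.Surjective (a.r X), ∃ D, CokerAtMost a D,
      ∃ (d : ℕ) (c : Equiv.Perm (Fin d) → F), c ≠ 0 ∧ CokerIdentity a d c] := by
  tfae_have 1 → 2 := by
    intro h
    refine ⟨0, fun X s hX => ⟨fun _ => 1, ?_, ?_⟩⟩
    · intro h1
      exact one_ne_zero (congrFun h1 0)
    · exact h X hX _
  tfae_have 2 → 1 := by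
    rintro ⟨D, hD⟩ X hX s
    exact of_bounded (P := fun _ _ => True) (Q := Img a)
      (top_stable a) (img_stable a) (img_kills a) hB (D := D) (fun X x hX _ => by
        obtain ⟨c, hc, b, hb⟩ := hD X x hX
        exact ⟨c, hc, fun _ => ⟨b, hb⟩⟩) X s hX trivial hX
  tfae_have 1 → 3 := by
    intro h
    refine ⟨0, fun _ => 1, ?_, ?_⟩
    · intro h1
      exact one_ne_zero (congrFun h1 1)
    · intro X W hX hW s
      exact h X hX _
  tfae_have 3 → 1 := by
    rintro ⟨d, c, hc, hI⟩ X hX s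
    exact of_identity (P := fun _ _ => True) (Q := Img a)
      (top_stable a) (img_stable a) (img_kills a) hB hc (fun X W x hX hW _ _ =>
        hI X W hX hW x) X s hX trivial hX
  tfae_finish

end Pool.Agent.V1157.RG
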